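import Pool.Agent.Helper75.Torus.Goals

set_option autoImplicit false

open Set MeasureTheory Matrix

namespace Pool.Agent.Helper11.Torus

open Pool.Agent.Helper75.Torus

theorem map_eq (J : E →L[ℝ] E) (b : E) :
    J b = b 0 • J (ee 0) + b 1 • J (ee 1) + b 2 • J (ee 2) := by
  have h : b = b 0 • ee 0 + b 1 • ee 1 + b 2 • ee 2 := by
    ext i
    fin_cases i <;> simp [ee]
  conv_lhs => rw [h]
  simp only [map_add, map_smul]

theorem symm_trn (J : E →L[ℝ] E) (a b : E) : trn J (J a) ⬝ᵥ b = J a ⬝ᵥ J b := by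
  have h : ∀ i, trn J (J a) i = J a ⬝ᵥ J (ee i) := fun i => rfl
  rw [map_eq J b]
  simp only [dotProduct_add, dotProduct_smul, smul_eq_mul]
  simp only [dotProduct, Fin.sum_univ_three] at h ⊢
  rw [h 0, h 1, h 2]
  ring

theorem dot_cross (κ w : E) : κ ⬝ᵥ crossProduct κ w = 0 := by
  simp only [dotProduct, Fin.sum_univ_three, cross_apply]
  simp
  ring

/-- the triple product identity -/
theorem triple (κ b b' w w' : E) (f : ℝ) (h : κ ⬝ᵥ b = 0) (h' : κ ⬝ᵥ b' = 0)
    (hs : w ⬝ᵥ b' = w' ⬝ᵥ b) :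
    κ ⬝ᵥ (crossProduct (f • crossProduct κ w) b' + crossProduct b (f • crossProduct κ w')) = 0 := by
  simp only [dotProduct, Fin.sum_univ_three, cross_apply] at *
  simp at *
  linear_combination (-f * (κ 0 * κ 0 + κ 1 * κ 1 + κ 2 * κ 2)) * hs
    + f * (κ 0 * w 0 + κ 1 * w 1 + κ 2 * w 2) * h' - f * (κ 0 * w' 0 + κ 1 * w' 1 + κ 2 * w' 2) * h

theorem hasDeriv_dot {t : ℝ} {κ : E} {β : ℝ → E} {d : E} {s : ℝ}
    (h : HasDerivWithinAt β d (Icc 0 t) s) :
    HasDerivWithinAt (fun s => κ ⬝ᵥ β s) (κ ⬝ᵥ d) (Icc 0 t) s := by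
  rw [hasDerivWithinAt_pi] at h
  simp only [dotProduct]
  exact HasDerivWithinAt.fun_sum (fun i _ => (h i).const_mul (κ i))

theorem hasDeriv_cross {t : ℝ} {β β' : ℝ → E} {d d' : E} {s : ℝ}
    (h : HasDerivWithinAt β d (Icc 0 t) s) (h' : HasDerivWithinAt β' d' (Icc 0 t) s) :
    HasDerivWithinAt (fun s => crossProduct (β s) (β' s))
      (crossProduct d (β' s) + crossProduct (β s) d') (Icc 0 t) s := by
  rw [hasDerivWithinAt_pi] at h h' ⊢
  intro i
  have key : ∀ j k : Fin 3, HasDerivWithinAt (fun s => β s j * β' s k - β s k * β' s j)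
      (d j * β' s k - d k * β' s j + (β s j * d' k - β s k * d' j)) (Icc 0 t) s := by
    intro j k
    refine (((h j).mul (h' k)).sub ((h k).mul (h' j))).congr_deriv ?_
    ring
  fin_cases i
  · exact (key 1 2).congr_deriv (by simp [cross_apply]) |>.congr (fun x _ => by
      simp [cross_apply]) (by simp [cross_apply])
  · exact (key 2 0).congr_deriv (by simp [cross_apply]) |>.congr (fun x _ => by
      simp [cross_apply]) (by simp [cross_apply])
  · exact (key 0 1).congr_deriv (by simp [cross_apply]) |>.congr (fun x _ => by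
      simp [cross_apply]) (by simp [cross_apply])

theorem const {t : ℝ} {f : ℝ → ℝ}
    (h : ∀ s ∈ Icc 0 t, HasDerivWithinAt f 0 (Icc 0 t) s) : ∀ s ∈ Icc 0 t, f s = f 0 := by
  apply constant_of_has_deriv_right_zero
  · intro s hs
    exact (h s hs).continuousWithinAt
  · intro s hs
    exact (h s (Ico_subset_Icc_self hs)).mono_of_mem_nhdsWithin
      (Filter.mem_of_superset (Icc_mem_nhdsGE hs.2) (Icc_subset_Icc_left hs.1))

theorem thm : G_BETA2 := by
  intro t J κ c β β' _ _ _ _ h h'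
  have orth : ∀ γ : ℝ → E, IsBeta t J κ c γ → ∀ s ∈ Icc 0 t, κ ⬝ᵥ γ s = 0 := by
    intro γ hγ s hs
    have := const (t := t) (f := fun s => κ ⬝ᵥ γ s) (fun r hr => by
      refine (hasDeriv_dot (κ := κ) (hγ.1 r hr)).congr_deriv ?_
      unfold bRHS
      rw [dotProduct_smul, dot_cross, smul_zero]) s hs
    rw [this, hγ.2]
  intro s hs
  refine ⟨orth β h s hs, ?_⟩
  refine const (t := t) (f := fun s => κ ⬝ᵥ crossProduct (β s) (β' s)) (fun r hr => ?_) s hs
  refine (hasDeriv_dot (κ := κ) (hasDeriv_cross (h.1 r hr) (h'.1 r hr))).congr_deriv ?_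
  unfold bRHS
  refine triple κ (β r) (β' r) _ _ _ (orth β h r hr) (orth β' h' r hr) ?_
  rw [symm_trn, symm_trn, dotProduct_comm]

end Pool.Agent.Helper11.Torus
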